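import Pool.Statements.S06923
import Pool.Agent.KS6_67.Sat.All

set_option autoImplicit false
open Classical
open Pool Pool.MP_02ddb6_co

namespace Pool.Agent.S06923

/-- For all 1 ≤ ℓ < k there are c, C > 0 such that for large n divisible by k−ℓ, the minimum edge count of an ℓ-Hamiltonian-saturated k-graph on n vertices is between c·n^ℓ and C·n^ℓ. -/
theorem result :
  ∀ k ℓ : ℕ, 1 ≤ ℓ → ℓ < k →
    ∃ c C : ℝ, 0 < c ∧ 0 < C ∧ ∃ N : ℕ, ∀ n : ℕ, N ≤ n → (k - ℓ) ∣ n →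
      (∃ H : Finset (Finset (Fin n)),
          ((∀ e ∈ H, e.card = k) ∧
           (¬ ∃ σ : Equiv.Perm (Fin n), ∀ i : ℕ, i < n / (k - ℓ) →
              Finset.univ.filter (fun v : Fin n => ∃ j, j < k ∧ ((σ v : Fin n) : ℕ) = (i * (k - ℓ) + j) % n) ∈ H) ∧
           (∀ e : Finset (Fin n), e.card = k → e ∉ H →
              ∃ σ : Equiv.Perm (Fin n), ∀ i : ℕ, i < n / (k - ℓ) →
                Finset.univ.filter (fun v : Fin n => ∃ j, j < k ∧ ((σ v : Fin n) : ℕ) = (i * (k - ℓ) + j) % n) ∈ insert e H)) ∧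
          (H.card : ℝ) ≤ C * (n : ℝ) ^ ℓ) ∧
      (∀ H : Finset (Finset (Fin n)),
          ((∀ e ∈ H, e.card = k) ∧
           (¬ ∃ σ : Equiv.Perm (Fin n), ∀ i : ℕ, i < n / (k - ℓ) →
              Finset.univ.filter (fun v : Fin n => ∃ j, j < k ∧ ((σ v : Fin n) : ℕ) = (i * (k - ℓ) + j) % n) ∈ H) ∧
           (∀ e : Finset (Fin n), e.card = k → e ∉ H →
              ∃ σ : Equiv.Perm (Fin n), ∀ i : ℕ, i < n / (k - ℓ) →
                Finset.univ.filter (fun v : Fin n => ∃ j, j < k ∧ ((σ v : Fin n) : ℕ) = (i * (k - ℓ) + j) % n) ∈ insert e H)) →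
          c * (n : ℝ) ^ ℓ ≤ (H.card : ℝ)) := by
  intro k ℓ h1 h2
  obtain ⟨c, C, hc, hC, N, hN⟩ := Pool.Agent.KS6_67.Sat.sat_theta h1 h2
  refine ⟨c, C, hc, hC, N, ?_⟩
  intro n hn hd
  -- the windows of the statement are `win`
  have hw : ∀ (σ : Equiv.Perm (Fin n)) (i : ℕ),
      Finset.univ.filter (fun v : Fin n => ∃ j, j < k ∧
        ((σ v : Fin n) : ℕ) = (i * (k - ℓ) + j) % n) =
      Pool.Agent.KS6_67.Sat.win n k (k - ℓ) σ i := by
    intro σ i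
    ext v
    rw [Pool.Agent.KS6_67.Sat.mem_win, Finset.mem_filter]
    simp
  have hS : ∀ H : Finset (Finset (Fin n)),
      ((∀ e ∈ H, e.card = k) ∧
           (¬ ∃ σ : Equiv.Perm (Fin n), ∀ i : ℕ, i < n / (k - ℓ) →
              Finset.univ.filter (fun v : Fin n => ∃ j, j < k ∧ ((σ v : Fin n) : ℕ) = (i * (k - ℓ) + j) % n) ∈ H) ∧
           (∀ e : Finset (Fin n), e.card = k → e ∉ H →
              ∃ σ : Equiv.Perm (Fin n), ∀ i : ℕ, i < n / (k - ℓ) →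
                Finset.univ.filter (fun v : Fin n => ∃ j, j < k ∧ ((σ v : Fin n) : ℕ) = (i * (k - ℓ) + j) % n) ∈ insert e H)) ↔
      Pool.Agent.KS6_67.Sat.Satd n k (k - ℓ) H := by
    intro H
    unfold Pool.Agent.KS6_67.Sat.Satd Pool.Agent.KS6_67.Sat.Ham
    simp only [hw, Finset.mem_insert]
  obtain ⟨⟨H, hH1, hH2⟩, hH3⟩ := hN n hn hd
  exact ⟨⟨H, (hS H).mpr hH1, hH2⟩, fun H' hH' => hH3 H' ((hS H').mp hH')⟩

end Pool.Agent.S06923
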